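import Mathlib
import Pool.Agent.Results.MP_5bf3a1_co.BoundedSecondEigenvalue
import Pool.Agent.GCN.Prep

set_option autoImplicit false

/-!
# MP_ba18fc_co: finiteness for bounded `θ1` or `θ2`, and equal sums of squares of the valencies
-/

namespace Pool.Agent.Results.MP_ba18fc_co.SameSquares

open TE TS GCN Matrix

/-- Main theorem. -/
theorem result :
    -- (1) finiteness of the number of exceptions for bounded second or smallest eigenvalue
    (∀ T : ℝ, ∃ N : ℕ, ∀ (n : ℕ) (G H : SimpleGraph (Fin n)) [DecidableRel G.Adj]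
      [DecidableRel H.Adj], G.Connected → H.Connected →
      {μ : ℝ | ∃ v : Fin n → ℝ, v ≠ 0 ∧ (G.adjMatrix ℝ) *ᵥ v = μ • v}.ncard = 3 →
      (G.adjMatrix ℝ).charpoly = (H.adjMatrix ℝ).charpoly →
      ((∀ μ ∈ {μ : ℝ | ∃ v : Fin n → ℝ, v ≠ 0 ∧ (G.adjMatrix ℝ) *ᵥ v = μ • v},
          ∀ ν ∈ {μ : ℝ | ∃ v : Fin n → ℝ, v ≠ 0 ∧ (G.adjMatrix ℝ) *ᵥ v = μ • v},
            μ < ν → μ ≤ T) ∨
        (∀ μ ∈ {μ : ℝ | ∃ v : Fin n → ℝ, v ≠ 0 ∧ (G.adjMatrix ℝ) *ᵥ v = μ • v}, -T ≤ μ)) →
      N < n →
      Multiset.map (fun y => G.degree y) (Finset.univ : Finset (Fin n)).val =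
        Multiset.map (fun y => H.degree y) (Finset.univ : Finset (Fin n)).val) ∧
    -- (2) equal sums of squares of the valencies
    (∀ (n : ℕ) (G H : SimpleGraph (Fin n)) [DecidableRel G.Adj]
      [DecidableRel H.Adj], G.Connected → H.Connected →
      {μ : ℝ | ∃ v : Fin n → ℝ, v ≠ 0 ∧ (G.adjMatrix ℝ) *ᵥ v = μ • v}.ncard = 3 →
      (G.adjMatrix ℝ).charpoly = (H.adjMatrix ℝ).charpoly →
      ∑ x, G.degree x ^ 2 = ∑ x, H.degree x ^ 2 →
      ((Finset.univ.image (fun x => G.degree x)).card ≤ 2 ∨
        (Finset.univ.image (fun x => G.degree x) ∪ Finset.univ.image (fun x => H.degree x)).card ≤ 5) →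
      Multiset.map (fun y => G.degree y) (Finset.univ : Finset (Fin n)).val =
        Multiset.map (fun y => H.degree y) (Finset.univ : Finset (Fin n)).val) ∧
    -- (3) two graphs with dominating vertices
    (∀ (n : ℕ) (G H : SimpleGraph (Fin n)) [DecidableRel G.Adj]
      [DecidableRel H.Adj], G.Connected → H.Connected →
      {μ : ℝ | ∃ v : Fin n → ℝ, v ≠ 0 ∧ (G.adjMatrix ℝ) *ᵥ v = μ • v}.ncard = 3 →
      (G.adjMatrix ℝ).charpoly = (H.adjMatrix ℝ).charpoly →
      (∃ x, G.degree x = n - 1) → (∃ x, H.degree x = n - 1) →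
      Multiset.map (fun y => G.degree y) (Finset.univ : Finset (Fin n)).val =
        Multiset.map (fun y => H.degree y) (Finset.univ : Finset (Fin n)).val) := by
  classical
  refine ⟨?_, ?_, ?_⟩
  · -- (1)
    intro T
    obtain ⟨N1, hN1⟩ := MP_5bf3a1_co.BoundedSecondEigenvalue.result T
    obtain ⟨N2, hN2⟩ := MP_5bf3a1_co.BoundedSmallestEigenvalue.result T
    refine ⟨max N1 N2, ?_⟩
    intro n G H _ _ hG hH h3 hsp hT hn
    obtain ⟨hset, T1, T2, θ0, θ1, θ2, α, α', hD, hD'⟩ := prep n G H hG hH h3 hsp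
    have h3' := h3
    rw [hset] at h3'
    have reg := arr_reg hD hD'
    have hdeg := sum_deg_eq hD hD'
    have hn1 : ¬ n ≤ N1 := by
      have := le_max_left N1 N2
      omega
    have hn2 : ¬ n ≤ N2 := by
      have := le_max_right N1 N2
      omega
    rcases hT with hT | hT
    · have hT' := hT
      rw [hset] at hT'
      rcases hN1 n G hG h3 hT with h | ⟨s, hs⟩ | h
      · exact reg (Or.inl h)
      · rcases hN1 n H hH h3' hT' with h | ⟨t, ht⟩ | h
        · exact reg (Or.inr h)
        · exact bip_eq G H s t hs ht hdeg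
        · exact absurd h hn1
      · exact absurd h hn1
    · rcases hN2 n G hG h3 hT with h | h
      · exact reg (Or.inl h)
      · exact absurd h hn2
  · -- (2)
    intro n G H _ _ hG hH h3 hsp hsq hcard
    obtain ⟨hset, T1, T2, θ0, θ1, θ2, α, α', hD, hD'⟩ := prep n G H hG hH h3 hsp
    have hs := sum_eq_of_sq hD hD' rfl hsq
    have hα : ∀ x, α x = Real.sqrt (G.degree x + θ1 * θ2) := by
      intro x
      rw [hD.diag x, sub_add_cancel, Real.sqrt_sq (hD.pos x).le]
    have hα' : ∀ x, α' x = Real.sqrt (H.degree x + θ1 * θ2) := by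
      intro x
      rw [hD'.diag x, sub_add_cancel, Real.sqrt_sq (hD'.pos x).le]
    rcases hcard with hc | hc
    · -- at most two valencies
      have : ∃ p q : ℕ, ∀ x, G.degree x = p ∨ G.degree x = q := by
        obtain ⟨x0⟩ := hG.nonempty
        by_cases hall : ∀ x, G.degree x = G.degree x0
        · exact ⟨G.degree x0, G.degree x0, fun x => Or.inl (hall x)⟩
        · push Not at hall
          obtain ⟨x1, hx1⟩ := hall
          refine ⟨G.degree x0, G.degree x1, fun x => ?_⟩
          by_contra hcon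
          push Not at hcon
          have hsub : ({G.degree x, G.degree x0, G.degree x1} : Finset ℕ) ⊆
              Finset.univ.image (fun x => G.degree x) := by
            intro d hd
            simp only [Finset.mem_insert, Finset.mem_singleton] at hd
            rw [Finset.mem_image]
            rcases hd with rfl | rfl | rfl
            · exact ⟨x, Finset.mem_univ _, rfl⟩
            · exact ⟨x0, Finset.mem_univ _, rfl⟩
            · exact ⟨x1, Finset.mem_univ _, rfl⟩
          have hc3 : ({G.degree x, G.degree x0, G.degree x1} : Finset ℕ).card = 3 := by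
            rw [Finset.card_eq_three]
            exact ⟨_, _, _, hcon.1, hcon.2, Ne.symm hx1, rfl⟩
          have := Finset.card_le_card hsub
          omega
      obtain ⟨p, q, hpq⟩ := this
      refine array_of_two hD hD' rfl hs (Real.sqrt (p + θ1 * θ2)) (Real.sqrt (q + θ1 * θ2)) ?_
      intro x
      rcases hpq x with h | h
      · left; rw [hα x, h]
      · right; rw [hα x, h]
    · -- at most five valencies in total
      refine array_of_five hD hD' rfl hs
        ((Finset.univ.image (fun x => G.degree x) ∪ Finset.univ.image (fun x => H.degree x)).image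
          (fun d : ℕ => Real.sqrt (d + θ1 * θ2))) (Finset.card_image_le.trans hc) ?_ ?_
      · intro x
        rw [Finset.mem_image]
        exact ⟨G.degree x, Finset.mem_union_left _ (Finset.mem_image_of_mem _ (Finset.mem_univ _)),
          (hα x).symm⟩
      · intro x
        rw [Finset.mem_image]
        exact ⟨H.degree x, Finset.mem_union_right _ (Finset.mem_image_of_mem _ (Finset.mem_univ _)),
          (hα' x).symm⟩
  · -- (3)
    intro n G H _ _ hG hH h3 hsp ⟨x, hx⟩ ⟨y, hy⟩
    obtain ⟨hset, T1, T2, θ0, θ1, θ2, α, α', hD, hD'⟩ := prep n G H hG hH h3 hsp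
    exact array_of_dom hD hD' rfl x y (by rw [Fintype.card_fin]; exact hx)
      (by rw [Fintype.card_fin]; exact hy)

end Pool.Agent.Results.MP_ba18fc_co.SameSquares
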